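import Pool.Agent.H504.RV.Main
import Pool.Agent.H504.RV.Exa

/-!
# MP_c63a07_nt: the coefficient field in the statement on ratios of successive critical values

`E` is a Galois number field with group `G` and `𝒦` a nonempty set of subfields of `E`. For a motive
`M₀` over a totally imaginary field `F` with coefficients in `E`, Q1 for the restrictions of
coefficients `Res_{E/K} M₀`, `K ∈ 𝒦`, is compared with Q1 for `M₀`, raised to the `k`-th power.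
`J (gals 𝒦)` is the left ideal of `ℤ[G]` generated by the sums `∑_{h ∈ Gal(E/K)} h`, `K ∈ 𝒦`.
-/

set_option autoImplicit false

namespace Pool.Agent.Results.MP_c63a07_nt.CoefficientFields

open Pool.Agent.H504.CF Pool.Agent.H504.RV

theorem result (E : Type) [Field E] [NumberField E] [IsGalois ℚ E]
    (𝒦 : Set (IntermediateField ℚ E)) (hne : 𝒦.Nonempty) :
    -- Part 1: from `Res_{E/K} M₀`, `K ∈ 𝒦`, to `M₀`, if `k` lies in the ideal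
    (∀ k : ℕ, const (E ≃ₐ[ℚ] E) k ∈ J (gals 𝒦) →
      ∀ (F : Type) [Field F] [NumberField F] [NumberField.IsTotallyComplex F] (δ : ℂ),
      IsDelta F δ → ∀ (M : Motive F E) (m : ℤ), (∀ K ∈ 𝒦, M.Ratio K δ m) →
      M.RatioPow E δ m k ∧ (k = 1 → M.Ratio E δ m)) ∧
    -- Part 2: the ideal gives the exact formal exponents
    (∀ k : ℕ, Exponent 𝒦 k ↔ const (E ≃ₐ[ℚ] E) k ∈ J (gals 𝒦)) ∧
    -- Part 3: all proper subfields
    ((∀ K : IntermediateField ℚ E, K ≠ ⊤ → K ∈ 𝒦) →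
      (∀ q : ℕ, HasPQ (E ≃ₐ[ℚ] E) q → const (E ≃ₐ[ℚ] E) q ∈ J (gals 𝒦)) ∧
      (∀ q q' : ℕ, HasPQ (E ≃ₐ[ℚ] E) q → HasPQ (E ≃ₐ[ℚ] E) q' → q ≠ q' →
        const (E ≃ₐ[ℚ] E) 1 ∈ J (gals 𝒦)) ∧
      (∀ n : ℕ, 4 ≤ n → Nonempty ((E ≃ₐ[ℚ] E) ≃* Equiv.Perm (Fin n)) →
        const (E ≃ₐ[ℚ] E) 1 ∈ J (gals 𝒦))) ∧
    -- Part 4: abelian fields
    ((∀ g h : E ≃ₐ[ℚ] E, g * h = h * g) →
      ((∃ k : ℕ, 0 < k ∧ const (E ≃ₐ[ℚ] E) k ∈ J (gals 𝒦)) ↔ Covers 𝒦) ∧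
      (Covers 𝒦 →
        const (E ≃ₐ[ℚ] E) (Pool.Agent.H504.CV.cexp (E ≃ₐ[ℚ] E)) ∈ J (gals 𝒦)) ∧
      ((∀ K ∈ 𝒦, IsCyc K) → Covers 𝒦 → ∀ k : ℕ,
        (const (E ≃ₐ[ℚ] E) k ∈ J (gals 𝒦) ↔ Pool.Agent.H504.CV.cexp (E ≃ₐ[ℚ] E) ∣ k))) := by
  refine ⟨fun k hk F _ _ _ δ hδ M m h => ⟨M.ratioPow_of_mem hδ hne h hk, fun h1 => ?_⟩,
    exponent_iff_mem hne, proper, fun hcomm => ⟨(abelian hcomm).1, (abelian hcomm).2,
      fun h1 h2 k => abelian_cyc hcomm h1 h2 k⟩⟩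
  subst h1
  exact M.ratio_of_mem hδ hne h (by exact_mod_cast hk)

end Pool.Agent.Results.MP_c63a07_nt.CoefficientFields
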