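import Pool.Agent.H367.OS.OFac

/-!
# Ratios of critical values over totally imaginary fields and single pieces of one sequence of cubics

A relation `r` of size `m` is one of the equations `x_i x_j = x_l`, `x_i + x_j = x_l`, `x_i = 1` with
`i, j, l < m`; the relations are numbered, the number of `r` is `ν(r)` (`relNum`). Let `G_m` be the
following polynomial with integral coefficients (`univG ℤ m`). There are variables `x_i` and `z_ij` for
`i, j < m`, a variable `c_r` for every relation `r`, and variables `y_{r,l}` for all relations `r` and
`l < (m + 1) 2 ^ ν(r)`. The equations (`eqnG`) are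

  `z_ij - x_i x_j`,  `c_r ^ 2 - c_r`,  `c_r ρ_r`,  `(1 - c_r) y_{r,l}`,

where `ρ_r` is the linear polynomial `z_ij - x_l`, `x_i + x_j - x_l` or `x_i - 1` of the relation.
`G_m` is the sum of the equations multiplied by further variables `t_e`, one for each equation. It has
degree three. Let `C_m` be the affine cubic hypersurface `G_m = 1` (`cubG R m` over the ring `R`); it is
smooth over the integers.

Let `F` be a totally imaginary number field and `E` a number field. Let `M` be the category of motives
over `F` with coefficients in `E` (for absolute Hodge cycles), a semisimple abelian category with Tate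
twists `N ↦ N(a)`. For a separated scheme `X` of finite type over `ℚ` let `D.G w j X` be the motive
`Gr^W_w H^j_c(X_F)`, with coefficients extended to `E`; for smooth projective `Y` it is `h^j(Y_F)` if
`j = w`, and zero otherwise. The `L`-functions are those of `Res_{F/ℚ} N`, with values in `E ⊗ ℂ`.

For a motive `N` let `C.crit N` be the statement that `N` is pure, that `Res_{F/ℚ} N` has no middle
Hodge type, and that `0` and `1` are both critical; `C.cont N` that `L(s, N)` has a meromorphic
continuation to `ℂ` which is holomorphic at `0` and `1`; `C.L₀ N` and `C.L₁ N` are the values of the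
continuation at `0` and `1`, and `C.rk N` is the rank of `N` over `E`. Let `c = 1 ⊗ 𝔦^{d_F/2} Δ_F`.
`Ratio E C c N` says: if `N` is critical at `0` and `1` in the sense above, if `L(s, N)` has the
continuation, and if `L(1, N)` is invertible, then `L(0, N) / L(1, N) = c^{rk N}` in `(E ⊗ ℂ)/Eˣ`. For
the Tate twist `N(m)` this is the statement of question Q1 for `N` and `m`; so question Q1 for `F` and
`E` is `Ratio E C c N` for all `N`.

Every pure motive `N` over `F` with coefficients in `E` is a direct factor of one motive
`h^i(Y_F)(t)`, for a smooth projective scheme `Y` over `ℚ` (hypothesis `factors`): it is a direct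
factor of a sum of motives `h^{i_j}(Y_j)(a_j)` of the same weight, where `Y_j` is a part of `(Y_j')_F`
for a scheme `Y_j'` over `ℚ`; take for `Y` the disjoint union of the schemes `Y_j' × ℙ^n`. For motives
`N` that are not pure there is nothing to prove.

**Theorem.** Let `E_m` be the number of the equations, and for `N ∈ ℕ` let `e = (m + 1) N + E_m - 1`
(`esh m N`).

(1) Question Q1 for `F` and `E` has a positive answer if and only if for infinitely many `m` the
relation `L(0, R) / L(1, R) = c^{rk R}` is true (under the assumptions above) for all direct factors
`R` of all Tate twists of the single motives `Gr^W_{j-1} H^j_c((C_m)_F)`, for all `j`.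

(2) For every `i` and `t` it is true for all direct factors of the motives `h^i(Y_F)(t)`, `Y` smooth
projective over `ℚ`, if and only if for infinitely many `m` it is true for all direct factors of the
single motives `Gr^W_{i+2e} H^{i+2e+1}_c((C_m)_F)(t + e)`, for all `N`.

(3) The hypersurfaces `C_m` decide the statement for the pieces of the cohomology (`DecidesPieces`).
For every affine scheme `Spec B` of finite type over `ℚ` and all large `m` there is an `N` such that
for `0 ≤ w ≤ 2 m + 1` and all `j` the statement for `Gr^W_w H^j_c(Spec B)` is equivalent to the one
for `Gr^W_{w+2e} H^{j+2e+1}_c(C_m)`. For every smooth projective `Y` over `ℚ`, every `d` and all large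
`m` there is an `e'` such that for all `i ≤ d` the statement for `h^i(Y)` is equivalent to the one for
`Gr^W_{i+2e'} H^{i+2e'+1}_c(C_m)`. The statements for the pieces of one `C_m` imply those for all
pieces of a given separated scheme `X` of finite type. (In all these statements there are the same
Tate twists on both sides, up to the shift by `e`.) (Here the statement is that all direct factors
satisfy `Ratio`.)

(4) `G_m` has integral coefficients and degree at most three, and `C_m` is smooth over all rings.

The hypotheses on the motives are standard (`IsMot`): exact sequences, affine bundles, disjoint unions,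
the cohomology of affine spaces, the weights of `H^j_c(X)` are between `0` and `2 dim X`, monomorphisms
split, `Gr^W_w H^j_c(X)` is a direct factor of `h^w(Y)` for some smooth projective `Y` (it is a
subquotient, by the weight spectral sequence), and every smooth projective scheme has an affine bundle
whose total space is affine (Jouanolou).

Idea of the proof. The projection of `C_m` to the affine space with the coordinates `x, z, c, y` is an
affine bundle over the complement of the zero set `W_m` of the equations. The scheme `W_m` is the
disjoint union, over all sets `s` of relations (`c_r = 1` for `r ∈ s` and `c_r = 0` for the others), of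
the products `X_s × 𝔸 ^ ((m + 1) N(s))`, where `X_s` is the affine scheme defined by the relations in
`s` and `N(s) = ∑_{r ∈ s} 2 ^ ν(r)`. The numbers `N(s)` are different, and the weights of the
cohomology of `X_s` are between `0` and `2 m`. So the part of weight `w + 2 (m + 1) N(s)`,
`0 ≤ w ≤ 2 m + 1`, of the cohomology of `W_m` is the twist of the part of weight `w` of the cohomology of
`X_s`, and it is different from the weight of the cohomology of the affine space. Every affine scheme of
finite type over a prime field is an `X_s`, for all large `m`. The pieces of the cohomology of an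
arbitrary scheme are direct factors of those of a disjoint union of affine schemes.

The universal system of relations is the one of helper854 (`Pool.Agent.H854.SQ`).
-/

set_option autoImplicit false

open CategoryTheory CategoryTheory.Limits AlgebraicGeometry Pool.Agent.Y116.UV Pool.Agent.Z125.UN
  Pool.Agent.Q193.LT Pool.Agent.H854.SQ Pool.Agent.H367.OS

universe v u



namespace Pool.Agent.Results.MP_c63a07_nt.PiecesOfOneSequence

variable {M : Type u} [Category.{v} M] {E : Type} [Field E] {EC : Type} [CommRing EC] [Algebra E EC]

/-- Criticality at `0` and `1`, continuation, the values at `0` and `1`, and the rank. -/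
structure RatioData (M : Type u) (EC : Type) where
  /-- `N` is pure without middle Hodge type, and critical at `0` and `1` -/
  crit : M → Prop
  /-- the `L`-function has a continuation which is holomorphic at `0` and `1` -/
  cont : M → Prop
  /-- `L(0, N)` -/
  L₀ : M → EC
  /-- `L(1, N)` -/
  L₁ : M → EC
  /-- the rank of `N` -/
  rk : M → ℕ

/-- If `N` is critical at `0` and `1`, if its `L`-function has a continuation, and if `L(1, N)` is
invertible, then `L(0, N) / L(1, N)` is `c ^ rk N` up to an element of `Eˣ`. -/
def Ratio (E : Type) [Field E] {EC : Type} [CommRing EC] [Algebra E EC] (C : RatioData M EC)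
    (c : EC) (N : M) : Prop :=
  C.crit N → C.cont N → IsUnit (C.L₁ N) →
    ∃ e : E, e ≠ 0 ∧ C.L₀ N = e • (c ^ C.rk N * C.L₁ N)

/-- **Ratios of critical values and single pieces of one sequence of cubic hypersurfaces over the
integers.** See the explanations above. -/
theorem result [Abelian M] {F : Type} [Field F] [NumberField F] [NumberField.IsTotallyComplex F]
    [NumberField E] {D : Pieces ℚ M} (h : IsMot D) {C : RatioData M EC} (c : EC)
    (factors : ∀ N : M, C.crit N → ∃ (Y : Sch ℚ) (i t : ℤ), SmoothProj Y ∧
      Factor N ((D.tw t).obj (D.G i i Y))) :
    ((∀ N : M, Ratio E C c N) ↔ ∃ᶠ m in Filter.atTop, ∀ j t : ℤ,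
      AllFactors (Ratio E C c) ((D.tw t).obj (D.G (j - 1) j (cubG ℚ m)))) ∧
    (∀ (i : ℕ) (t : ℤ),
      (∀ Y : Sch ℚ, SmoothProj Y → AllFactors (Ratio E C c) ((D.tw t).obj (D.G i i Y))) ↔
      ∃ᶠ m in Filter.atTop, ∀ N : ℕ, AllFactors (Ratio E C c) ((D.tw (t + esh m N)).obj
        (D.G (i + 2 * esh m N) (i + 2 * esh m N + 1) (cubG ℚ m)))) ∧
    DecidesPieces D (AllFactors (Ratio E C c)) ∧
    ∀ m : ℕ, (univG ℤ m).totalDegree ≤ 3 ∧
      ∀ (R : Type) [CommRing R], MvPolynomial.map (Int.castRingHom R) (univG ℤ m) = univG R m ∧
        Smooth (cubG R m).hom := by
  have hf : FactorClosed (AllFactors (Ratio E C c)) := allFactors_closed _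
  have hd := decides_pieces isPrimeField_rat h hf
  refine ⟨Iff.trans ?_ (hd.all.out 1 0), fun i t => (hd.weight i t).out 1 0, hd, cubG_facts⟩
  constructor
  · exact fun g Y _ i t R _ => g R
  · intro g N hN
    obtain ⟨Y, i, t, hY, hF⟩ := factors N hN
    exact g Y hY i t N hF hN

end Pool.Agent.Results.MP_c63a07_nt.PiecesOfOneSequence
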